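import Pool.Agent.H25.CFL.Targets
import Pool.Agent.H20.HD.OT
import Pool.Agent.H14.HD.QE

/-!
# MP_e37c09_lc: module HCE, the cofinality in HOD as a definable function
-/

open Ordinal Cardinal Order Set
open scoped ZFSet

universe u

namespace Pool.Agent.H54.HCL

open _root_.HD Pool.Agent.H25.CFL Pool.Agent.H20.HD.OT Pool.Agent.H14.HD.QE

/-- `e` is the code of a cofinal subset of `x` whose order type is `t` -/
structure Qh (en : Ordinal.{u} → ZFSet.{u}) (x t e : Ordinal.{u}) : Prop where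
  lx : IsSuccLimit x
  le : t ≤ x
  lt : IsSuccLimit t
  ns : ¬ SingHOD t
  sub : ∀ z, z ∈ E en e → z < x
  cf : ∀ b < x, ∃ a, a ∈ E en e ∧ b ≤ a
  ix : ∀ z, z ∈ E en e → ∃ a < t, nth (E en e) a z
  al : ∀ a < t, ∃ z, nth (E en e) a z

theorem qh_iff {en : Ordinal.{u} → ZFSet.{u}} {x t e : Ordinal.{u}} : Qh en x t e ↔
    IsSuccLimit x ∧ t ≤ x ∧ IsSuccLimit t ∧ ¬ SingHOD t ∧ (∀ z, z ∈ E en e → z < x) ∧
    (∀ b < x, ∃ a, a ∈ E en e ∧ b ≤ a) ∧ (∀ z, z ∈ E en e → ∃ a < t, nth (E en e) a z) ∧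
    ∀ a < t, ∃ z, nth (E en e) a z :=
  ⟨fun h => ⟨h.lx, h.le, h.lt, h.ns, h.sub, h.cf, h.ix, h.al⟩,
    fun ⟨h1, h2, h3, h4, h5, h6, h7, h8⟩ => ⟨h1, h2, h3, h4, h5, h6, h7, h8⟩⟩

/-- the cofinality in HOD -/
noncomputable def hh (en : Ordinal.{u} → ZFSet.{u}) (x : Ordinal.{u}) : Ordinal.{u} :=
  sInf {t | ∃ e, Qh en x t e}

/-- the least code -/
noncomputable def ec (en : Ordinal.{u} → ZFSet.{u}) (x : Ordinal.{u}) : Ordinal.{u} :=
  sInf {e | Qh en x (hh en x) e}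

/-- the cofinal function -/
noncomputable def cc (en : Ordinal.{u} → ZFSet.{u}) (x i : Ordinal.{u}) : Ordinal.{u} :=
  sInf {z | nth (E en (ec en x)) i z}

section

variable {en : Ordinal.{u} → ZFSet.{u}}

theorem do_nth (hDB : T_DB.{u}) (hE : DO fun w => w 0 ∈ E en (w 1)) :
    DO fun w => nth (E en (w 2)) (w 0) (w 1) := by
  have h := hDB (fun a w => a ∈ E en (w 0)) (hE.congr fun w => Iff.rfl)
  exact h.congr fun w => Iff.rfl

theorem do_qh (hDL : T_DL.{u}) (hS : DS.{u} {a | SingHOD a}) (hDB : T_DB.{u})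
    (hE : DO fun w => w 0 ∈ E en (w 1)) : DO fun w => Qh en (w 0) (w 1) (w 2) := by
  have hN := do_nth hDB hE
  have hL : DO fun w : ℕ → Ordinal.{u} => IsSuccLimit (w 0) := hDL.congr fun w => Iff.rfl
  have hS' : DO fun w : ℕ → Ordinal.{u} => SingHOD (w 0) := hS.congr fun w => Iff.rfl
  have h1 : DO fun w : ℕ → Ordinal.{u} => IsSuccLimit (w 0) := hL
  have h2 : DO fun w : ℕ → Ordinal.{u} => w 1 ≤ w 0 := DO.le 1 0
  have h3 : DO fun w : ℕ → Ordinal.{u} => IsSuccLimit (w 1) :=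
    DO.s1 (X := fun x => IsSuccLimit x) hL 1
  have h4 : DO fun w : ℕ → Ordinal.{u} => ¬ SingHOD (w 1) :=
    (DO.s1 (X := fun x => SingHOD x) hS' 1).not
  have h5 : DO fun w : ℕ → Ordinal.{u} => ∀ z, z ∈ E en (w 2) → z < w 0 :=
    DO.all (R := fun z w => z ∈ E en (w 2) → z < w 0)
      ((DO.s2 (X := fun z e => z ∈ E en e) hE 0 3).imp (DO.lt 0 1))
  have h6 : DO fun w : ℕ → Ordinal.{u} => ∀ b < w 0, ∃ a, a ∈ E en (w 2) ∧ b ≤ a := by
    refine DO.allLt (R := fun b w => ∃ a, a ∈ E en (w 2) ∧ b ≤ a) 0 ?_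
    refine DO.ex (R := fun a w => a ∈ E en (w 3) ∧ w 0 ≤ a) ?_
    exact (DO.s2 (X := fun z e => z ∈ E en e) hE 0 4).and (DO.le 1 0)
  have h7 : DO fun w : ℕ → Ordinal.{u} => ∀ z, z ∈ E en (w 2) → ∃ a < w 1,
      nth (E en (w 2)) a z := by
    refine DO.all (R := fun z w => z ∈ E en (w 2) → ∃ a < w 1, nth (E en (w 2)) a z) ?_
    refine (DO.s2 (X := fun z e => z ∈ E en e) hE 0 3).imp ?_
    refine DO.exLt (R := fun a w => nth (E en (w 3)) a (w 0)) 2 ?_
    exact DO.s3 (X := fun a z e => nth (E en e) a z) hN 0 1 4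
  have h8 : DO fun w : ℕ → Ordinal.{u} => ∀ a < w 1, ∃ z, nth (E en (w 2)) a z := by
    refine DO.allLt (R := fun a w => ∃ z, nth (E en (w 2)) a z) 1 ?_
    refine DO.ex (R := fun z w => nth (E en (w 3)) (w 0) z) ?_
    exact DO.s3 (X := fun a z e => nth (E en e) a z) hN 1 0 4
  exact (h1.and (h2.and (h3.and (h4.and (h5.and (h6.and (h7.and h8))))))).congr fun w => qh_iff

theorem df_hh (hQ : DO fun w => Qh en (w 0) (w 1) (w 2)) : DF fun w => hh en (w 0) := by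
  refine DF.sinf (A := fun t w => ∃ e, Qh en (w 0) t e) ?_
  refine DO.ex (R := fun e w => Qh en (w 1) (w 0) e) ?_
  exact DO.s3 (X := fun x t e => Qh en x t e) hQ 2 1 0

theorem df_ec (hQ : DO fun w => Qh en (w 0) (w 1) (w 2)) : DF fun w => ec en (w 0) := by
  have hh' := df_hh hQ
  refine DF.sinf (A := fun e w => Qh en (w 0) (hh en (w 0)) e) ?_
  have h1 : DF fun w => hh en (w 1) := DO.s2 (X := fun t b => t = hh en b) hh' 0 2
  exact DF.sub (P := fun t w => Qh en (w 1) t (w 0)) h1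
    (DO.s3 (X := fun x t e => Qh en x t e) hQ 2 0 1)

theorem df_cc (hDB : T_DB.{u}) (hE : DO fun w => w 0 ∈ E en (w 1))
    (hQ : DO fun w => Qh en (w 0) (w 1) (w 2)) : DF fun w => cc en (w 0) (w 1) := by
  have he := df_ec hQ
  refine DF.sinf (A := fun z w => nth (E en (ec en (w 0))) (w 1) z) ?_
  have h1 : DF fun w => ec en (w 1) := DO.s2 (X := fun t b => t = ec en b) he 0 2
  exact DF.sub (P := fun e w => nth (E en e) (w 2) (w 0)) h1
    (DO.s3 (X := fun a z e => nth (E en e) a z) (do_nth hDB hE) 3 1 0)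

end

/-- HCE. -/
theorem pf_HCE (hCX : T_CX.{u}) (hEN : T_EN.{u}) (hEA : T_EA.{u}) (hVH : T_VH.{u})
    (hDB : T_DB.{u}) (hPS : T_PS.{u}) (hDL : T_DL.{u}) : T_HCE.{u} := by
  obtain ⟨en, hen⟩ := hEN
  obtain ⟨p, s, r, hps⟩ := hPS
  have hE := (hEA en hen).1
  have hQ := do_qh hDL hps.dg hDB hE
  have spec : ∀ x, IsSuccLimit x → Qh en x (hh en x) (ec en x) := by
    intro x hx
    have hne : {t | ∃ e, Qh en x t e}.Nonempty := by
      obtain ⟨e, t, h1, h2, -, h4, h5, h6, h7⟩ := hCX en hen x hx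
      exact ⟨t, e, hx, h1, h2.1, h2.2, fun z hz => h4 hz, h5, h6, h7⟩
    have h1 : ∃ e, Qh en x (hh en x) e := csInf_mem hne
    exact csInf_mem (s := {e | Qh en x (hh en x) e}) h1
  have spec2 : ∀ x, IsSuccLimit x → ∀ i < hh en x, nth (E en (ec en x)) i (cc en x i) := by
    intro x hx i hi
    exact csInf_mem (s := {z | nth (E en (ec en x)) i z}) ((spec x hx).al i hi)
  have hlt : ∀ x, IsSuccLimit x → ∀ i < hh en x, cc en x i < x := fun x hx i hi =>
    (spec x hx).sub _ (spec2 x hx i hi).1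
  have hmono : ∀ x, IsSuccLimit x → ∀ i j, i < j → j < hh en x → cc en x i < cc en x j := by
    intro x hx i j hij hj
    exact ((hVH (E en (ec en x))).2.1 _ _ _ _ (spec2 x hx i (hij.trans hj)) (spec2 x hx j hj)).1
      hij
  have hunb : ∀ x, IsSuccLimit x → ∀ y < x, ∃ i < hh en x, y ≤ cc en x i := by
    intro x hx y hy
    obtain ⟨a, ha, hya⟩ := (spec x hx).cf y hy
    obtain ⟨i, hi, h⟩ := (spec x hx).ix a ha
    exact ⟨i, hi, by rw [nth_uniq hVH (spec2 x hx i hi) h]; exact hya⟩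
  refine ⟨hh en, cc en, ?_, ?_, fun x hx => (spec x hx).le,
    fun x hx => ⟨(spec x hx).lt, (spec x hx).ns⟩, ?_, hlt, hmono, hunb⟩
  · exact DO.s2 (X := fun t b => t = hh en b) (df_hh hQ) 1 0
  · exact DO.s3 (X := fun y x i => y = cc en x i) (df_cc hDB hE hQ) 2 0 1
  · intro x hx
    let f : Iio (hh en x) → Iio x := fun a => ⟨cc en x a.1, hlt x hx a.1 a.2⟩
    have hf : StrictMono f := by
      intro a b hab
      exact hmono x hx a.1 b.1 hab b.2
    have hf' : IsCofinal (range f) := by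
      intro b
      obtain ⟨i, hi, h⟩ := hunb x hx b.1 b.2
      exact ⟨f ⟨i, hi⟩, ⟨_, rfl⟩, h⟩
    have h1 := Order.cof_congr_of_strictMono hf hf'
    rw [Ordinal.cof_Iio, Ordinal.cof_Iio, ← Ordinal.lift_cof, ← Ordinal.lift_cof] at h1
    exact Cardinal.lift_injective h1

end Pool.Agent.H54.HCL
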